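import Pool.Agent.helper67.GV.Spec

set_option autoImplicit false

open Finset Filter Topology

namespace Pool.Agent.helper67.GV

open Pool.Agent.helper21.GR

/-- an equivalence of the palettes respecting the capacities -/
theorem TRN_equiv (K K' : Type) [Fintype K] [Fintype K'] (cap : K → ℕ) (cap' : K' → ℕ)
    (h : Multiset.map cap univ.val = Multiset.map cap' univ.val) :
    ∃ e : K ≃ K', ∀ i, cap' (e i) = cap i := by
  classical
  have hc : ∀ c : ℕ, Fintype.card {a // cap a = c} = Fintype.card {b // cap' b = c} := by
    intro c
    have h1 := congrArg (Multiset.count c) h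
    rw [Multiset.count_map, Multiset.count_map] at h1
    rw [Fintype.card_subtype, Fintype.card_subtype]
    have e1 : (univ.filter fun a => cap a = c) = (univ.filter fun a => c = cap a) := by
      apply Finset.filter_congr
      intro a _
      exact eq_comm
    have e2 : (univ.filter fun b => cap' b = c) = (univ.filter fun b => c = cap' b) := by
      apply Finset.filter_congr
      intro a _
      exact eq_comm
    rw [e1, e2]
    exact h1
  exact ⟨Equiv.ofFiberEquiv (fun c => Fintype.equivOfCardEq (hc c)),
    fun i => Equiv.ofFiberEquiv_map _ i⟩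

theorem TRN_Rz (K K' : Type) (cap : K → ℕ) (cap' : K' → ℕ) (e : K ≃ K')
    (he : ∀ i, cap' (e i) = cap i) (n : ℕ) (h : Rz cap n) : Rz cap' n := by
  obtain ⟨c, hG, hB⟩ := h
  refine ⟨fun u v => e (c u v), ?_, ?_⟩
  · exact ⟨fun u v => congrArg e (hG.1 u v), fun u v w => by
      have := hG.2 u v w
      simpa using this⟩
  · intro i Q hQ hcl
    have h1 := hB (e.symm i) Q hQ (by
      intro u hu v hv huv
      have := hcl u hu v hv huv
      rw [← this, Equiv.symm_apply_apply])
    rw [← he (e.symm i), Equiv.apply_symm_apply] at h1
    exact h1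

theorem TRN : TRN_stmt := by
  intro K K' _ _ cap cap' h
  obtain ⟨e, he⟩ := TRN_equiv K K' cap cap' h
  unfold Fc
  congr 1
  ext n
  constructor
  · intro hn
    exact TRN_Rz K K' cap cap' e he n hn
  · intro hn
    refine TRN_Rz K' K cap' cap e.symm ?_ n hn
    intro i
    rw [← he (e.symm i), Equiv.apply_symm_apply]

end Pool.Agent.helper67.GV
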