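import Pool.Agent.helper67.GV.Spec

set_option autoImplicit false

open Finset Filter Topology

namespace Pool.Agent.helper67.GV

open Pool.Agent.helper21.GR

theorem WMO : WMO_stmt := by
  intro T g hT hg
  have hsum : ∀ (x A : ℕ), x ≤ A → ∀ Q : Finset (Fin 1), ∑ _v ∈ Q, x ≤ A := by
    intro x A hx Q
    rw [Finset.sum_const, smul_eq_mul]
    have h1 : Q.card ≤ 1 := by
      have := Finset.card_le_univ Q
      simpa using this
    calc Q.card * x ≤ 1 * x := Nat.mul_le_mul_right _ h1
      _ = x := one_mul x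
      _ ≤ A := hx
  have hmono : ∀ a a' : ℕ, 1 ≤ a → a ≤ a' → a' ≤ T → g a ≤ g a' := by
    intro a a' ha haa' ha'
    have h := hg.2 1 (fun _ _ => True) (fun _ => a) (fun _ => 1) a' 1 one_pos
      (fun _ _ _ => trivial) (fun _ => ⟨ha, le_rfl⟩) ha' hT
      (fun Q _ => hsum a a' haa' Q) (fun Q _ => hsum 1 1 le_rfl Q)
    rw [hg.1] at h
    simpa using h
  refine ⟨hmono, ?_⟩
  intro a ha haT
  have h := hmono 1 a le_rfl ha haT
  rw [hg.1] at h
  exact h

end Pool.Agent.helper67.GV
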